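import Pool.Agent.helper73.TC.Asm

/-!
# MP_a50e43_gt, Q1: complex projective 3-space has a tight polyhedral embedding into E^10

The embedding is a centrally symmetric simplicial complex with 20 vertices `±e_1, …, ±e_10`
(800 facets) in the boundary of the 10-dimensional cross polytope; it is tight for each field.

Definitions: `Pool.Agent.helper73.TC.Stmt`, `Pool.Agent.helper73.TC.XDefs` (`CP`).
The homeomorphism with `CP 3` (`Pool.Agent.helper73.TC.CP3`): `CP 3` is the symmetric cube of the
2-sphere; a symmetric regular subdivision of the product of three tetrahedron boundaries, its
quotient with 30 vertices, and 2490 bistellar flips, all checked in the kernel. Tightness: each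
induced subcomplex on the vertices in a half-space has homology in even degrees only, by chains of
vertex additions whose links are certified in the kernel.
-/

set_option autoImplicit false

namespace Pool.Agent.Results.MP_a50e43_gt.TightCP3

open Pool.Agent.helper73.TC

theorem result :
    ∃ f : CP 3 → EuclideanSpace ℝ (Fin 10), PolyhedralEmbedding f ∧ Substantial f ∧
      ∀ (F : Type) [Field F], Tight F f := main

end Pool.Agent.Results.MP_a50e43_gt.TightCP3
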